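import Mathlib
import Pool.Agent.Helper50.GP.St

set_option autoImplicit false

namespace Pool.Agent.Helper6.GP

open Pool.Agent.Helper50.GP

theorem center_index_congr {A B : Type} [Group A] [Group B] (e : A ≃* B) :
    (Subgroup.center A).index = (Subgroup.center B).index := by
  have h : Subgroup.center A = (Subgroup.center B).comap e.toMonoidHom := by
    ext a
    rw [Subgroup.mem_comap, Subgroup.mem_center_iff, Subgroup.mem_center_iff]
    constructor
    · intro h b
      have h1 := h (e.symm b)
      have h2 := congrArg e h1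
      simpa using h2
    · intro h b
      have h1 := h (e b)
      apply e.injective
      simpa using h1
  rw [h]
  exact Subgroup.index_comap_of_surjective _ e.surjective

/-- the rows -/
def Kr {G : Type} [Group G] (x c : G) (p : ℕ) (r : ZMod p) : Subgroup G :=
  Subgroup.closure (Set.range (fun j : ℤ => xl x c ((r.val : ℤ) + p * j)))

theorem Kr_map {G : Type} [Group G] (x c : G) (p : ℕ) (r : ZMod p) :
    Kr x c p r = (Subgroup.closure (Set.range (fun j : ℤ => xl x c (p * j)))).map
      (MulAut.conj (c ^ (-(r.val : ℤ)))).toMonoidHom := by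
  unfold Kr
  rw [MonoidHom.map_closure, ← Set.range_comp]
  congr 1
  congr 1
  funext j
  have h := xl_conj_c x c (r.val : ℤ) (p * j)
  simp only [Function.comp, MulEquiv.toMonoidHom_eq_coe, MonoidHom.coe_coe, MulAut.conj_apply]
  rw [← zpow_neg, neg_neg, h, add_comm]

theorem commute_closure {G : Type} [Group G] (s t : Set G)
    (h : ∀ a ∈ s, ∀ b ∈ t, a * b = b * a) :
    ∀ a ∈ Subgroup.closure s, ∀ b ∈ Subgroup.closure t, a * b = b * a := by
  have h1 : t ⊆ (Subgroup.centralizer (Subgroup.closure s : Set G) : Subgroup G) := by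
    intro b hb
    have h2 : Subgroup.closure s ≤ Subgroup.centralizer {b} := by
      rw [Subgroup.closure_le]
      intro a ha
      rw [SetLike.mem_coe, Subgroup.mem_centralizer_iff]
      intro b' hb'
      rw [Set.mem_singleton_iff] at hb'
      rw [hb']
      exact (h a ha b hb).symm
    rw [SetLike.mem_coe, Subgroup.mem_centralizer_iff]
    intro a ha
    have h3 := h2 ha
    rw [Subgroup.mem_centralizer_iff] at h3
    exact (h3 b rfl).symm
  intro a ha b hb
  have h4 := (Subgroup.closure_le _).2 h1 hb
  rw [Subgroup.mem_centralizer_iff] at h4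
  exact h4 a ha

theorem hBZI (h1 : StPER) (h2 : StCPI) : StBZI := by
  intro p q m g e1 e2 hp P N ω hN G _ w c hF hC
  obtain ⟨_, _, hc⟩ := h1 p q m g e1 e2 P N ω hN G w c hF
  haveI : NeZero p := ⟨hp.out.ne_zero⟩
  set x : G := w ^ (p * (p - 1)) with hx
  have hK : ∀ r : ZMod p, (Subgroup.center (Kr x c p r)).index ≠ 0 := by
    intro r
    have e := (Subgroup.equivMapOfInjective
      (Subgroup.closure (Set.range (fun j : ℤ => xl x c (p * j))))
      (MulAut.conj (c ^ (-(r.val : ℤ)))).toMonoidHom (MulAut.conj (c ^ (-(r.val : ℤ)))).injective)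
    have h3 := center_index_congr e
    rw [Kr_map]
    rw [← h3]
    exact hC
  have hcomm : ∀ i j : ZMod p, i ≠ j → ∀ a ∈ Kr x c p i, ∀ b ∈ Kr x c p j, a * b = b * a := by
    intro i j hij
    apply commute_closure
    rintro _ ⟨a, rfl⟩ _ ⟨b, rfl⟩
    apply hc
    intro hd
    apply hij
    have h4 : (((i.val : ℤ) + p * a - ((j.val : ℤ) + p * b) : ℤ) : ZMod p) = 0 :=
      (ZMod.intCast_zmod_eq_zero_iff_dvd _ p).2 hd
    push_cast at h4
    rw [ZMod.natCast_self, zero_mul, zero_mul, add_zero, add_zero, ZMod.natCast_zmod_val,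
      ZMod.natCast_zmod_val] at h4
    exact sub_eq_zero.1 h4
  have h5 := h2 G (ZMod p) (fun r => Kr x c p r) hK hcomm
  have h6 : (⨆ i, Kr x c p i : Subgroup G) = Bs x c := by
    apply le_antisymm
    · apply iSup_le
      intro r
      unfold Kr Bs
      apply Subgroup.closure_mono
      rintro _ ⟨j, rfl⟩
      exact ⟨_, rfl⟩
    · unfold Bs
      rw [Subgroup.closure_le]
      rintro _ ⟨j, rfl⟩
      have h7 : xl x c j ∈ Kr x c p (j : ZMod p) := by
        apply Subgroup.subset_closure
        have h8 : (p : ℤ) ∣ j - (((j : ZMod p).val : ℕ) : ℤ) := by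
          rw [← ZMod.intCast_zmod_eq_zero_iff_dvd]
          push_cast
          rw [ZMod.natCast_zmod_val, sub_self]
        obtain ⟨k, hk⟩ := h8
        refine ⟨k, ?_⟩
        show xl x c _ = _
        congr 1
        linarith
      exact (le_iSup (fun r => Kr x c p r) (j : ZMod p)) h7
  have h9 : (⨆ i, (fun r => Kr x c p r) i : Subgroup G) = Bs x c := h6
  rw [h9] at h5
  exact h5

end Pool.Agent.Helper6.GP
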